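import Pool.Agent.Helper92.BO.GoalsP
import Pool.Agent.Helper59.BO.PTM

set_option autoImplicit false

/-! Packet BO-PTZ: the algorithm for pair systems is polynomial time. -/

namespace Pool.Agent.Helper7.BO

open Pool.Agent.Helper81.CC Pool.Agent.Bin Pool.Agent.Helper92.VP Pool.Agent.Helper92.FR
open Pool.Agent.Helper92.BO Pool.Agent.Helper59.BO

theorem ptz (hptu : PtuStmt) (hptd : PtdStmt) (hptp : Pool.Agent.Helper92.BO.PtpStmt)
    (hptt : Pool.Agent.Helper92.BO.PttStmt) : PtzStmt := by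
  intro Δ fl D B C c1 hC
  unfold mainP
  have hE : PolyTime (fun z : Sys × ℕ => edgesT z.1) :=
    PolyTime.comp (f := fun z : Sys × ℕ => z.1) hptu (PolyTime.fst PolyTime.id')
  have hn : PolyTime (fun z : Sys × ℕ => z.1.1) := by fun_prop
  have hm : PolyTime (fun z : Sys × ℕ => mP C z.1.1 z.2) := pt_mP C (by fun_prop) (by fun_prop)
  have hN : PolyTime (fun z : Sys × ℕ => (z.1.1 + z.2 + 2) ^ c1) := by fun_prop
  have hsets := hptd _ (fun z : Sys × ℕ => edgesT z.1) (fun z => z.1.1) (fun _ => B)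
    (fun z => mP C z.1.1 z.2) (fun z => (z.1.1 + z.2 + 2) ^ c1) hE hn (by fun_prop) hm hN
  have hT : PolyTime (fun z : Sys × ℕ => tot Δ fl D (edgesT z.1) z.1.1 B (mP C z.1.1 z.2)
      ((z.1.1 + z.2 + 2) ^ c1)) := by
    unfold tot
    apply PT_qsum
    refine PolyTime.flatMap hsets ?_
    refine hptt _ (fun p : (Sys × ℕ) × List ℕ => edgesT p.1.1) (fun p => p.1.1.1)
      (fun p => mP C p.1.1.1 p.1.2) (fun p => (p.1.1.1 + p.1.2 + 2) ^ c1)
      (fun p => qm Δ (mP C p.1.1.1 p.1.2)) (fun p => wts fl D (mP C p.1.1.1 p.1.2))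
      (fun p => p.2.take (mP C p.1.1.1 p.1.2)) ?_ ?_ ?_ ?_ ?_ ?_ ?_ ?_ ?_
    · exact hE.comp (PolyTime.fst PolyTime.id')
    · fun_prop
    · exact pt_mP C (by fun_prop) (by fun_prop)
    · fun_prop
    · exact pt_qm Δ (pt_mP C (by fun_prop) (by fun_prop))
    · exact hptp fl D _ _ (pt_mP C (by fun_prop) (by fun_prop))
    · exact PolyTime.take (pt_mP C (by fun_prop) (by fun_prop)) (by fun_prop)
    · intro p
      exact List.length_take_le _ _
    · intro p
      exact hC _ _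
  apply Pool.Agent.Helper62.FR.PT_toRQ
  have hX : PolyTime (fun z : Sys × ℕ => expQ (8 * (z.1.1 + 1 + z.2)) (tot Δ fl D (edgesT z.1)
      z.1.1 B (mP C z.1.1 z.2) ((z.1.1 + z.2 + 2) ^ c1))) := pt_expQ (by fun_prop) hT
  have hR : PolyTime (fun z : Sys × ℕ => Qn.prod (List.replicate z.1.1 (invNat 2))) := by
    apply PT_qprod
    exact PolyTime.replicate (by fun_prop) (by fun_prop)
  fun_prop

end Pool.Agent.Helper7.BO
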