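import Pool.Agent.Helper92.BO.GoalsG

set_option autoImplicit false

/-! Packet BO-ZNG: the zero-free region for all graphs of bounded degree. -/

namespace Pool.Agent.Helper7.BO

open Pool.Agent.Helper92.BO

theorem zng (hcig : CigStmt) (hsmi : SmiStmt) : ZngStmt := by
  intro Δ
  have hΔ0 : (0 : ℝ) ≤ (Δ : ℝ) := Nat.cast_nonneg Δ
  have hΔ : (0 : ℝ) < 400 * ((Δ : ℝ) + 1) ^ 2 := by positivity
  have hl0 : (0 : ℝ) < 1 / (400 * ((Δ : ℝ) + 1) ^ 2) := by positivity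
  have hl0' : 1 / (400 * ((Δ : ℝ) + 1) ^ 2) ≤ 1 := by
    rw [div_le_one hΔ]
    nlinarith
  set l0 : ℝ := 1 / (400 * ((Δ : ℝ) + 1) ^ 2) with hl0d
  set κ : ℝ := l0 / 2 * (1 / 4) ^ Δ / (800 * ((Δ : ℝ) + 1) ^ 2) with hκd
  have hκ : 0 < κ := by positivity
  refine ⟨min (κ * (l0 / 2) ^ 2 / 8) (l0 / 2), lt_min (by positivity) (by linarith), ?_⟩
  intro G hG L hL z t ht0 ht1 hz
  by_cases hzl : ‖z‖ ≤ l0
  · exact (hsmi G Δ z hG hzl L hL).1 (fun _ => 1) (fun u _ => ⟨one_pos, le_refl 1⟩)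
  · push Not at hzl
    have h1 : ‖z - t‖ ≤ l0 / 2 := le_trans hz (min_le_right _ _)
    have h2 : ‖z‖ ≤ ‖z - t‖ + ‖(t : ℂ)‖ := by
      have := norm_add_le (z - t) (t : ℂ)
      simpa using this
    have h3 : ‖(t : ℂ)‖ = t := by
      rw [Complex.norm_real, Real.norm_of_nonneg ht0]
    have h4 : l0 / 2 ≤ t := by linarith
    have h5 : κ ≤ t * (1 / 4) ^ Δ / (800 * ((Δ : ℝ) + 1) ^ 2) := by
      rw [hκd]
      gcongr
    have h6 : ‖z - t‖ ≤ κ * t ^ 2 / 8 := by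
      refine (hz.trans (min_le_left _ _)).trans ?_
      gcongr
    exact (hcig G t κ Δ z hG (by linarith) ht1 hκ h5 h6 L hL).1 (fun _ => 1)
      (fun u _ => ⟨one_pos, le_refl 1, by norm_num⟩)

end Pool.Agent.Helper7.BO
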